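import Pool.Agent.Work.MP_e9e200_al.UP.Main
import Pool.Agent.Work.MP_e9e200_al.Bd.B21
import Pool.Agent.Work.MP_e9e200_al.Bd.B32
import Pool.Agent.Work.MP_e9e200_al.Bd.B28

/-!
# Project HT: assembly of all items

The conjecture of Bieri on the invariants `Σ^m` of metabelian groups.
-/

set_option autoImplicit false

namespace Pool.Agent.Work.MP_e9e200_al.HT

theorem A_EZ : StEZ := I_EZ I_E0
theorem A_PRS : StPRS := I_PRS LC.A_GN LC.I_AD
theorem A_LOW1 : StLOW1 :=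
  I_LOW1 LZ.I_TRU LC.A_OPEN LC.I_LIN LC.A_DENS LC.A_DISC I_Car (I_Sig1 I_Build)
theorem A_SUB : StSUB := I_SUB A_EZ I_EC A_PRS A_LOW1
theorem A_SK1 : StSK1 := I_SK1 I_E1
theorem A_SK2 : StSK2 := I_SK2 I_E1
theorem A_GNZ : StGNZ := I_GNZ LC.I_RES
theorem A_ASM : StASM := I_ASM I_E0 I_SEQ A_GNZ I_TRW I_MVP
theorem A_SUP : StSUP :=
  I_SUP I_CON A_SK1 A_SK2 A_ASM UP.A_U UP.A_G3 I_Mono
    (fun G _ _ hG χ h => (UP.nfr_iff G hG χ).1 h) HS.A_S2

/-- the conjecture of Bieri: the three sets coincide -/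
theorem main (m : ℕ) (hm : 1 ≤ m) (G : Type) [Group G] [Group.FG G] (hG : Metab G)
    (hfp : GroupFP G m) :
    HSigC G m = SigC G m ∧ SigC G m = ConvLE G m (SigC G 1) := by
  have h1 : SigC G m = ConvLE G m (SigC G 1) := UP.sigma_eq m hm G hG hfp
  have h2 : HSigC G m = ConvLE G m (SigC G 1) :=
    Set.Subset.antisymm (A_SUP m G hm hG (LZ.tame m G hG hfp)) (A_SUB m G hm hG)
  exact ⟨h2.trans h1.symm, h1⟩

end Pool.Agent.Work.MP_e9e200_al.HT
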