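import Pool.Agent.Work.MP_e9e200_al.Bd.B24

/-!
# Project HT: Cayley complexes (common part of SK1 and SK2)
-/

set_option autoImplicit false

namespace Pool.Agent.Work.MP_e9e200_al.HT.SKC

open Finsupp Pool.Agent.Work.MP_e9e200_al.LC

/-! ### Homotopy of edge paths -/

section Paths

variable {G : Type} [Group G] {Y : Cel G} {P1 : G × Y.B 1 → Prop} {P2 : G × Y.B 2 → Prop}

/-- the reversed path -/
def rv (p : List ((G × Y.B 1) × Bool)) : List ((G × Y.B 1) × Bool) :=
  (p.map (fun e => (e.1, !e.2))).reverse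

lemma rv_cons (e : (G × Y.B 1) × Bool) (p : List ((G × Y.B 1) × Bool)) :
    rv (e :: p) = rv p ++ [(e.1, !e.2)] := by
  simp [rv]

lemma rv_rv (p : List ((G × Y.B 1) × Bool)) : rv (rv p) = p := by
  unfold rv
  rw [List.map_reverse, List.reverse_reverse, List.map_map]
  have h : ((fun e : (G × Y.B 1) × Bool => (e.1, !e.2)) ∘
      fun e : (G × Y.B 1) × Bool => (e.1, !e.2)) = id := by
    funext e
    simp
  rw [h, List.map_id]

lemma en_rev (e : (G × Y.B 1) × Bool) : Y.en (e.1, !e.2) = Y.st e := by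
  unfold Cel.en
  simp

lemma st_rev (e : (G × Y.B 1) × Bool) : Y.st (e.1, !e.2) = Y.en e := rfl

lemma isPath_append {v w u : G × Y.B 0} {p q : List ((G × Y.B 1) × Bool)}
    (h : Y.IsPath P1 v p w) (h' : Y.IsPath P1 w q u) : Y.IsPath P1 v (p ++ q) u := by
  induction p generalizing v with
  | nil =>
    have : v = w := h
    subst this
    exact h'
  | cons e p ih => exact ⟨h.1, h.2.1, ih h.2.2⟩

lemma isPath_rv {v w : G × Y.B 0} {p : List ((G × Y.B 1) × Bool)}
    (h : Y.IsPath P1 v p w) : Y.IsPath P1 w (rv p) v := by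
  induction p generalizing v with
  | nil => exact Eq.symm h
  | cons e p ih =>
    rw [rv_cons]
    exact isPath_append (ih h.2.2) ⟨h.1, rfl, (en_rev e).trans h.2.1⟩

lemma hty_append {v : G × Y.B 0} {p q : List ((G × Y.B 1) × Bool)} (h : Y.Hty P1 P2 v p q)
    (r : List ((G × Y.B 1) × Bool)) : Y.Hty P1 P2 v (p ++ r) (q ++ r) := by
  induction h with
  | refl v p => exact Cel.Hty.refl v _
  | symm _ ih => exact ih.symm
  | trans _ _ ih1 ih2 => exact ih1.trans ih2
  | cons e he _ ih => exact Cel.Hty.cons e he ih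
  | back e p he => exact Cel.Hty.back e (p ++ r) he
  | cell c p hc =>
    rw [List.append_assoc]
    exact Cel.Hty.cell c (p ++ r) hc

lemma hty_prefix {v v' : G × Y.B 0} {s p q : List ((G × Y.B 1) × Bool)}
    (hs : Y.IsPath P1 v' s v) (h : Y.Hty P1 P2 v p q) : Y.Hty P1 P2 v' (s ++ p) (s ++ q) := by
  induction s generalizing v' with
  | nil =>
    have : v' = v := hs
    subst this
    exact h
  | cons e s ih =>
    have h1 := ih hs.2.2
    have h2 := Cel.Hty.cons e hs.1 h1
    rw [hs.2.1] at h2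
    exact h2

lemma hty_rv {v w : G × Y.B 0} {p : List ((G × Y.B 1) × Bool)}
    (h : Y.IsPath P1 v p w) : Y.Hty P1 P2 v (p ++ rv p) [] := by
  induction p generalizing v with
  | nil => exact Cel.Hty.refl v _
  | cons e p ih =>
    rw [rv_cons]
    have h1 := hty_append (ih h.2.2) [(e.1, !e.2)]
    have h2 := Cel.Hty.cons e h.1 h1
    have h3 := Cel.Hty.back (P2 := P2) e [] h.1
    rw [← h.2.1]
    rw [List.append_assoc] at h2
    exact h2.trans h3

/-- conjugation of closed paths -/
lemma hty_conj {v u : G × Y.B 0} {p q : List ((G × Y.B 1) × Bool)} (hp : Y.IsPath P1 v p u)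
    (hq : Y.IsPath P1 u q v) (h : Y.Hty P1 P2 u (q ++ p) []) : Y.Hty P1 P2 v (p ++ q) [] := by
  have h1 := hty_prefix (isPath_append hp hq) (hty_rv (P2 := P2) hp)
  rw [List.append_nil] at h1
  refine h1.symm.trans ?_
  have h2 := hty_prefix hp (hty_append h (rv p))
  have h3 : p ++ q ++ (p ++ rv p) = p ++ (q ++ p ++ rv p) := by simp
  rw [h3]
  exact h2.trans (hty_rv hp)

/-- monotonicity of paths -/
lemma isPath_mono {P1' : G × Y.B 1 → Prop} (h : ∀ e, P1 e → P1' e) {v w : G × Y.B 0}
    {p : List ((G × Y.B 1) × Bool)} (hp : Y.IsPath P1 v p w) : Y.IsPath P1' v p w := by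
  induction p generalizing v with
  | nil => exact hp
  | cons e p ih => exact ⟨h _ hp.1, hp.2.1, ih hp.2.2⟩

lemma isPath_mem {v w : G × Y.B 0} {p : List ((G × Y.B 1) × Bool)} (hp : Y.IsPath P1 v p w)
    (e : (G × Y.B 1) × Bool) (he : e ∈ p) : P1 e.1 := by
  induction p generalizing v with
  | nil => exact absurd he List.not_mem_nil
  | cons e' p ih =>
    rcases List.mem_cons.1 he with rfl | he
    · exact hp.1
    · exact ih hp.2.2 he

lemma chn_cons (e : (G × Y.B 1) × Bool) (p : List ((G × Y.B 1) × Bool)) :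
    Y.chn (e :: p) = single e.1 (if e.2 then (1 : ℤ) else -1) + Y.chn p := by
  rw [Cel.chn, List.map_cons, List.sum_cons]
  rfl

lemma ext_single1 {A B : Type} (d : B → (G × A →₀ ℤ)) (g : G) (b : B) (n : ℤ) :
    ext ℤ d (single (g, b) n) = n • tr ℤ g (d b) := by
  unfold LC.ext
  rw [Finsupp.linearCombination_single]

/-- the boundary of the chain of a path -/
lemma ext_chn (hd : ∀ b, Y.d 0 b = single (Y.tgt b) 1 - single (Y.src b) 1) {v w : G × Y.B 0}
    {p : List ((G × Y.B 1) × Bool)} (hp : Y.IsPath P1 v p w) :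
    ext ℤ (Y.d 0) (Y.chn p) = single w 1 - single v 1 := by
  induction p generalizing v with
  | nil =>
    have : v = w := hp
    subst this
    rw [Cel.chn]
    simp
  | cons e p ih =>
    rw [chn_cons, map_add, ih hp.2.2]
    have h1 : ext ℤ (Y.d 0) (single e.1 (if e.2 then (1 : ℤ) else -1)) =
        single (Y.en e) 1 - single (Y.st e) 1 := by
      obtain ⟨⟨g, b⟩, s⟩ := e
      have htr : tr ℤ g (Y.d 0 b) = single (g * (Y.tgt b).1, (Y.tgt b).2) (1 : ℤ) -
          single (g * (Y.src b).1, (Y.src b).2) (1 : ℤ) := by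
        rw [hd, map_sub]
        congr 1
        · show Finsupp.mapDomain _ _ = _
          rw [Finsupp.mapDomain_single]
        · show Finsupp.mapDomain _ _ = _
          rw [Finsupp.mapDomain_single]
      cases s
      · rw [ext_single1, htr]
        simp [Cel.st, Cel.en]
      · rw [ext_single1, htr]
        simp [Cel.st, Cel.en]
    rw [h1, hp.2.1]
    abel

end Paths

/-! ### The complex -/

section Complex

variable {G : Type} [Group G] (χ : Additive G →+ ℝ) (X : Set G)

/-- the edges -/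
def Edg : Type := {x : G // x ∈ X ∧ 0 ≤ χ (Additive.ofMul x)}

/-- the cells -/
def Bf (C : Type) : ℕ → Type
  | 0 => Unit
  | 1 => Edg χ X
  | 2 => C
  | _ + 3 => Empty

/-- the complex with the attaching paths `att` -/
noncomputable def K (C : Type) (att : C → List ((G × Edg χ X) × Bool)) : Cel G where
  B := Bf χ X C
  src := fun _ => ((1 : G), ())
  tgt := fun x => ((Subtype.val (show Edg χ X from x) : G), ())
  bas := fun _ => ((1 : G), ())
  att := att
  d := fun i => match i with
    | 0 => fun b => (single ((Subtype.val (show Edg χ X from b) : G), ()) 1 -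
        single ((1 : G), ()) 1 : G × Unit →₀ ℤ)
    | 1 => fun b => (((att b).map (fun e => single e.1 (if e.2 then (1 : ℤ) else -1))).sum :
        G × Edg χ X →₀ ℤ)
    | _ + 2 => fun b => Empty.elim b

variable {χ X} {C : Type} {att : C → List ((G × Edg χ X) × Bool)}

/-- an oriented edge of the complex -/
def mkE (g : G) (x : Edg χ X) (b : Bool) : (G × (K χ X C att).B 1) × Bool := ((g, x), b)

/-- a vertex of the complex -/
def ve (g : G) : G × (K χ X C att).B 0 := (g, ())

lemma exE (e : (G × (K χ X C att).B 1) × Bool) :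
    ∃ (g : G) (x : Edg χ X) (b : Bool), e = mkE g x b := ⟨e.1.1, e.1.2, e.2, rfl⟩

lemma exV (v : G × (K χ X C att).B 0) : ∃ g : G, v = ve g := ⟨v.1, rfl⟩

lemma ve_inj {g h : G} (hgh : (ve g : G × (K χ X C att).B 0) = ve h) : g = h :=
  congrArg Prod.fst hgh

lemma st_t (g : G) (x : Edg χ X) : (K χ X C att).st (mkE g x true) = ve g := by
  show ((g * 1, ()) : G × Unit) = (g, ())
  rw [mul_one]

lemma st_f (g : G) (x : Edg χ X) : (K χ X C att).st (mkE g x false) = ve (g * x.1) := rfl

lemma en_t (g : G) (x : Edg χ X) : (K χ X C att).en (mkE g x true) = ve (g * x.1) := rfl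

lemma en_f (g : G) (x : Edg χ X) : (K χ X C att).en (mkE g x false) = ve g := st_t g x

/-! ### Words -/

/-- the half space -/
abbrev H1 (χ : Additive G →+ ℝ) (X : Set G) (C : Type)
    (att : C → List ((G × Edg χ X) × Bool)) : G × (K χ X C att).B 1 → Prop :=
  (K χ X C att).Ge χ (fun _ _ => 0) 0 1

/-- the 2-cells in the half space -/
abbrev H2 (χ : Additive G →+ ℝ) (X : Set G) (C : Type)
    (att : C → List ((G × Edg χ X) × Bool)) : G × (K χ X C att).B 2 → Prop :=
  (K χ X C att).Ge χ (fun _ _ => 0) 0 2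

/-- homotopy in the half space -/
abbrev Hom (v : G × (K χ X C att).B 0) (p q : List ((G × (K χ X C att).B 1) × Bool)) : Prop :=
  (K χ X C att).Hty (H1 χ X C att) (H2 χ X C att) v p q

/-- paths in the half space -/
abbrev Pa (v : G × (K χ X C att).B 0) (p : List ((G × (K χ X C att).B 1) × Bool))
    (w : G × (K χ X C att).B 0) : Prop :=
  (K χ X C att).IsPath (H1 χ X C att) v p w

lemma h1_iff {g : G} {x : Edg χ X} {b : Bool} :
    H1 χ X C att (mkE g x b).1 ↔ 0 ≤ χ (Additive.ofMul g) := by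
  show (0 : ℝ) ≤ χ (Additive.ofMul g) + 0 ↔ _
  rw [add_zero]

lemma chi_mul (a b : G) : χ (Additive.ofMul (a * b)) =
    χ (Additive.ofMul a) + χ (Additive.ofMul b) := by
  rw [ofMul_mul, map_add]

lemma chi_inv (a : G) : χ (Additive.ofMul a⁻¹) = - χ (Additive.ofMul a) := by
  rw [ofMul_inv, map_neg]

lemma chi_one : χ (Additive.ofMul (1 : G)) = 0 := by simp

open Classical in
/-- the oriented edge from `g` to `g * x` -/
noncomputable def L0 (h1 : (1 : G) ∈ X) (g x : G) : (G × Edg χ X) × Bool :=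
  if h : x ∈ X ∧ 0 ≤ χ (Additive.ofMul x) then ((g, ⟨x, h⟩), true)
  else if h : x⁻¹ ∈ X ∧ 0 ≤ χ (Additive.ofMul x⁻¹) then ((g * x, ⟨x⁻¹, h⟩), false)
  else ((g, ⟨1, h1, by rw [chi_one]⟩), true)

/-- the path of a word -/
noncomputable def PW0 (h1 : (1 : G) ∈ X) : G → List G → List ((G × Edg χ X) × Bool)
  | _, [] => []
  | g, x :: w => L0 h1 g x :: PW0 h1 (g * x) w

/-- the oriented edge from `g` to `g * x` -/
noncomputable def L (h1 : (1 : G) ∈ X) (g x : G) : (G × (K χ X C att).B 1) × Bool := L0 h1 g x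

/-- the path of a word -/
noncomputable def PW (h1 : (1 : G) ∈ X) (g : G) (w : List G) :
    List ((G × (K χ X C att).B 1) × Bool) := PW0 h1 g w

lemma PW_nil (h1 : (1 : G) ∈ X) (g : G) : (PW h1 g [] : List ((G × (K χ X C att).B 1) × Bool)) =
    [] := rfl

lemma PW_cons (h1 : (1 : G) ∈ X) (g x : G) (w : List G) :
    (PW h1 g (x :: w) : List ((G × (K χ X C att).B 1) × Bool)) =
    L h1 g x :: PW h1 (g * x) w := rfl

lemma L_pos (h1 : (1 : G) ∈ X) (g : G) {x : G} (hx : x ∈ X)
    (h : 0 ≤ χ (Additive.ofMul x)) :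
    (L h1 g x : (G × (K χ X C att).B 1) × Bool) = mkE g ⟨x, hx, h⟩ true := by
  show (L0 h1 g x : (G × Edg χ X) × Bool) = ((g, ⟨x, hx, h⟩), true)
  unfold L0
  rw [dif_pos ⟨hx, h⟩]

lemma L_neg (h1 : (1 : G) ∈ X) (g : G) {x : G} (hx : x⁻¹ ∈ X)
    (h : ¬ 0 ≤ χ (Additive.ofMul x)) (h' : 0 ≤ χ (Additive.ofMul x⁻¹)) :
    (L h1 g x : (G × (K χ X C att).B 1) × Bool) = mkE (g * x) ⟨x⁻¹, hx, h'⟩ false := by
  show (L0 h1 g x : (G × Edg χ X) × Bool) = ((g * x, ⟨x⁻¹, hx, h'⟩), false)
  unfold L0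
  rw [dif_neg (fun h2 => h h2.2), dif_pos ⟨hx, h'⟩]

lemma st_L (hX : ∀ x ∈ X, x⁻¹ ∈ X) (h1 : (1 : G) ∈ X) (g : G) {x : G} (hx : x ∈ X) :
    (K χ X C att).st (L h1 g x) = ve g := by
  by_cases h : 0 ≤ χ (Additive.ofMul x)
  · rw [L_pos h1 g hx h, st_t]
  · have h' : 0 ≤ χ (Additive.ofMul x⁻¹) := by rw [chi_inv]; push Not at h; linarith
    rw [L_neg h1 g (hX x hx) h h', st_f]
    show ve (g * x * x⁻¹) = ve g
    rw [mul_inv_cancel_right]

lemma en_L (hX : ∀ x ∈ X, x⁻¹ ∈ X) (h1 : (1 : G) ∈ X) (g : G) {x : G} (hx : x ∈ X) :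
    (K χ X C att).en (L h1 g x) = ve (g * x) := by
  by_cases h : 0 ≤ χ (Additive.ofMul x)
  · rw [L_pos h1 g hx h, en_t]
  · have h' : 0 ≤ χ (Additive.ofMul x⁻¹) := by rw [chi_inv]; push Not at h; linarith
    rw [L_neg h1 g (hX x hx) h h', en_f]

lemma h1_L (hX : ∀ x ∈ X, x⁻¹ ∈ X) (h1 : (1 : G) ∈ X) {g x : G} (hx : x ∈ X)
    (hg : 0 ≤ χ (Additive.ofMul g))
    (hgx : 0 ≤ χ (Additive.ofMul (g * x))) : H1 χ X C att (L h1 g x).1 := by
  by_cases h : 0 ≤ χ (Additive.ofMul x)
  · rw [L_pos h1 g hx h]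
    exact h1_iff.2 hg
  · have h' : 0 ≤ χ (Additive.ofMul x⁻¹) := by rw [chi_inv]; push Not at h; linarith
    rw [L_neg h1 g (hX x hx) h h']
    exact h1_iff.2 hgx

lemma mv_L0 (h1 : (1 : G) ∈ X) (u g x : G) :
    (((u * (L0 (χ := χ) h1 g x).1.1, (L0 (χ := χ) h1 g x).1.2), (L0 (χ := χ) h1 g x).2) :
      (G × Edg χ X) × Bool) = L0 h1 (u * g) x := by
  unfold L0
  split_ifs
  · rfl
  · simp only [mul_assoc]
  · rfl

lemma mv_cons (u : G) (e : (G × (K χ X C att).B 1) × Bool)
    (p : List ((G × (K χ X C att).B 1) × Bool)) :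
    (K χ X C att).mv u (e :: p) = ((u * e.1.1, e.1.2), e.2) :: (K χ X C att).mv u p := rfl

lemma mv_L (h1 : (1 : G) ∈ X) (u g x : G) :
    (((u * (L (χ := χ) (att := att) h1 g x).1.1, (L (χ := χ) (att := att) h1 g x).1.2),
      (L (χ := χ) (att := att) h1 g x).2) :
      (G × (K χ X C att).B 1) × Bool) = L h1 (u * g) x := mv_L0 h1 u g x

lemma mv_PW (h1 : (1 : G) ∈ X) (u g : G) (w : List G) :
    (K χ X C att).mv u (PW h1 g w) = PW h1 (u * g) w := by
  induction w generalizing g with
  | nil => rfl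
  | cons x w ih => rw [PW_cons, mv_cons, ih, PW_cons, mv_L, mul_assoc]

lemma PW_append (h1 : (1 : G) ∈ X) (g : G) (w w' : List G) :
    (PW h1 g (w ++ w') : List ((G × (K χ X C att).B 1) × Bool)) =
      PW h1 g w ++ PW h1 (g * w.prod) w' := by
  induction w generalizing g with
  | nil => rw [List.nil_append, List.prod_nil, mul_one, PW_nil, List.nil_append]
  | cons x w ih =>
    rw [List.cons_append, PW_cons, ih, PW_cons, List.prod_cons, mul_assoc, List.cons_append]

lemma ok_start {g : G} {w : List G} (h : HS.Ok χ X g w) : 0 ≤ χ (Additive.ofMul g) := by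
  cases w with
  | nil => exact h
  | cons x w => exact h.1

lemma ok_append {g : G} {w w' : List G} : HS.Ok χ X g (w ++ w') ↔
    HS.Ok χ X g w ∧ HS.Ok χ X (g * w.prod) w' := by
  induction w generalizing g with
  | nil =>
    simp only [List.nil_append, List.prod_nil, mul_one]
    exact ⟨fun h => ⟨ok_start h, h⟩, fun h => h.2⟩
  | cons x w ih =>
    rw [List.cons_append, List.prod_cons, ← mul_assoc]
    constructor
    · intro h
      have h2 := ih.1 h.2.2
      exact ⟨⟨h.1, h.2.1, h2.1⟩, h2.2⟩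
    · intro h
      exact ⟨h.1.1, h.1.2.1, ih.2 ⟨h.1.2.2, h.2⟩⟩

lemma ok_mono {a b : G} (h : χ (Additive.ofMul a) ≤ χ (Additive.ofMul b)) {w : List G}
    (hw : HS.Ok χ X a w) : HS.Ok χ X b w := by
  induction w generalizing a b with
  | nil => exact le_trans hw h
  | cons x w ih =>
    refine ⟨le_trans hw.1 h, hw.2.1, ih ?_ hw.2.2⟩
    rw [chi_mul, chi_mul]
    linarith

lemma isPath_PW (hX : ∀ x ∈ X, x⁻¹ ∈ X) (h1 : (1 : G) ∈ X) {g : G} {w : List G}
    (h : HS.Ok χ X g w) :
    (K χ X C att).IsPath (H1 χ X C att) (ve g) (PW h1 g w) (ve (g * w.prod)) := by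
  induction w generalizing g with
  | nil =>
    show ve g = ve (g * [].prod)
    rw [List.prod_nil, mul_one]
  | cons x w ih =>
    refine ⟨h1_L hX h1 h.2.1 h.1 (ok_start h.2.2), st_L hX h1 g h.2.1, ?_⟩
    have h2 : (K χ X C att).en (L0 h1 g x) = ve (g * x) := en_L hX h1 g h.2.1
    rw [h2, List.prod_cons, ← mul_assoc]
    exact ih h.2.2

lemma cons_L (hX : ∀ x ∈ X, x⁻¹ ∈ X) (h1 : (1 : G) ∈ X) {g x : G} (hx : x ∈ X)
    (hg : 0 ≤ χ (Additive.ofMul g)) (hgx : 0 ≤ χ (Additive.ofMul (g * x)))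
    {p q : List ((G × (K χ X C att).B 1) × Bool)} (h : Hom (ve (g * x)) p q) :
    Hom (ve g) (L h1 g x :: p) (L h1 g x :: q) := by
  have h3 : (K χ X C att).Hty (H1 χ X C att) (H2 χ X C att) ((K χ X C att).en (L h1 g x)) p q := by
    rw [en_L hX h1 g hx]; exact h
  have h2 := Cel.Hty.cons (L h1 g x) (h1_L hX h1 hx hg hgx) h3
  rw [st_L hX h1 g hx] at h2
  exact h2

/-- the label of an oriented edge -/
def lab (e : (G × (K χ X C att).B 1) × Bool) : G :=
  if e.2 then (show Edg χ X from e.1.2).1 else ((show Edg χ X from e.1.2).1)⁻¹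

lemma lab_t (g : G) (x : Edg χ X) : lab (mkE g x true : (G × (K χ X C att).B 1) × Bool) = x.1 :=
  rfl

lemma lab_f (g : G) (x : Edg χ X) :
    lab (mkE g x false : (G × (K χ X C att).B 1) × Bool) = (x.1)⁻¹ := rfl

/-- every path in the half space is homotopic to the path of a word -/
lemma stepA (hX : ∀ x ∈ X, x⁻¹ ∈ X) (h1 : (1 : G) ∈ X)
    (hT : ∀ h : G, 0 ≤ χ (Additive.ofMul h) → ∀ x ∈ X, χ (Additive.ofMul x) = 0 →
      ∀ p : List ((G × (K χ X C att).B 1) × Bool),
      Hom (ve h) (L h1 h x :: L h1 (h * x) x⁻¹ :: p) p)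
    {p : List ((G × (K χ X C att).B 1) × Bool)} {g h : G} (hg : 0 ≤ χ (Additive.ofMul g))
    (hp : Pa (ve g) p (ve h)) :
    Hom (ve g) p (PW h1 g (p.map lab)) ∧
      HS.Ok χ X g (p.map lab) ∧ h = g * (p.map lab).prod := by
  induction p generalizing g with
  | nil =>
    refine ⟨Cel.Hty.refl _ _, hg, ?_⟩
    have h2 : g = h := ve_inj hp
    rw [← h2]
    simp
  | cons e p ih =>
    obtain ⟨he, hst, hp⟩ := hp
    obtain ⟨k, x, s, rfl⟩ := exE e
    have hk : 0 ≤ χ (Additive.ofMul k) := h1_iff.1 he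
    cases s
    · -- reversed edge
      rw [st_f] at hst
      have hgh : k * x.1 = g := ve_inj hst
      rw [en_f] at hp
      obtain ⟨ih1, ih2, ih3⟩ := ih hk hp
      have hgx : g * (x.1)⁻¹ = k := by rw [← hgh]; group
      have hxX : (x.1)⁻¹ ∈ X := hX _ x.2.1
      refine ⟨?_, ?_, ?_⟩
      · rw [List.map_cons, lab_f, PW_cons, hgx]
        have h3 : (K χ X C att).Hty (H1 χ X C att) (H2 χ X C att) (ve g)
            (mkE k x false :: PW h1 k (p.map lab))
            (L h1 g (x.1)⁻¹ :: PW h1 k (p.map lab)) := by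
          by_cases h0 : 0 ≤ χ (Additive.ofMul (x.1)⁻¹)
          · have hx0 : χ (Additive.ofMul x.1) = 0 := by
              rw [chi_inv] at h0
              have := x.2.2
              linarith
            have h4 := hT k hk x.1 x.2.1 hx0 (PW h1 k (p.map lab))
            rw [hgh] at h4
            have h5 : (L h1 k x.1 : (G × (K χ X C att).B 1) × Bool) = mkE k x true :=
              L_pos h1 k x.2.1 x.2.2
            rw [h5] at h4
            have h6 := Cel.Hty.cons (mkE k x false) he (by rw [en_f]; exact h4)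
            have h7 := Cel.Hty.back (P1 := H1 χ X C att) (P2 := H2 χ X C att) (mkE k x false)
              (L h1 g (x.1)⁻¹ :: PW h1 k (p.map lab)) he
            rw [st_f, hgh] at h6 h7
            exact h6.symm.trans h7
          · have h4 : (L h1 g (x.1)⁻¹ : (G × (K χ X C att).B 1) × Bool) = mkE k x false := by
              have h5 : (x.1)⁻¹⁻¹ ∈ X := by rw [inv_inv]; exact x.2.1
              have h6 : 0 ≤ χ (Additive.ofMul (x.1)⁻¹⁻¹) := by rw [inv_inv]; exact x.2.2
              rw [L_neg h1 g h5 h0 h6, hgx]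
              have h7 : (⟨(x.1)⁻¹⁻¹, h5, h6⟩ : Edg χ X) = x := Subtype.ext (inv_inv _)
              rw [h7]
            rw [h4]
            exact Cel.Hty.refl _ _
        refine Cel.Hty.trans ?_ h3
        have h4 := Cel.Hty.cons (mkE k x false) he (by rw [en_f]; exact ih1)
        rw [st_f, hgh] at h4
        exact h4
      · rw [List.map_cons, lab_f]
        refine ⟨hg, hxX, ?_⟩
        rw [hgx]; exact ih2
      · rw [ih3, List.map_cons, lab_f, List.prod_cons, ← mul_assoc, hgx]
    · -- edge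
      rw [st_t] at hst
      have hgh : k = g := ve_inj hst
      subst hgh
      rw [en_t] at hp
      have hhx : 0 ≤ χ (Additive.ofMul (k * x.1)) := by
        rw [chi_mul]
        have := x.2.2
        linarith
      obtain ⟨ih1, ih2, ih3⟩ := ih hhx hp
      refine ⟨?_, ?_, ?_⟩
      · rw [List.map_cons, lab_t, PW_cons]
        have h5 : (L h1 k x.1 : (G × (K χ X C att).B 1) × Bool) = mkE k x true :=
          L_pos h1 k x.2.1 x.2.2
        rw [h5]
        have h4 := Cel.Hty.cons (mkE k x true) he (by rw [en_t]; exact ih1)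
        rw [st_t] at h4
        exact h4
      · rw [List.map_cons, lab_t]
        exact ⟨hg, x.2.1, ih2⟩
      · rw [ih3, List.map_cons, lab_t, List.prod_cons, ← mul_assoc]

/-- a 2-cell -/
lemma cell0 (c : (K χ X C att).B 2) {u : G} (hu : 0 ≤ χ (Additive.ofMul u))
    (p : List ((G × (K χ X C att).B 1) × Bool)) :
    Hom (ve u) ((K χ X C att).mv u ((K χ X C att).att c) ++ p) p := by
  have h : (K χ X C att).Hty (H1 χ X C att) (H2 χ X C att) (ve (u * 1))
      ((K χ X C att).mv u ((K χ X C att).att c) ++ p) p :=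
    Cel.Hty.cell (P2 := H2 χ X C att) (u, c) p (by
    show (0 : ℝ) ≤ χ (Additive.ofMul u) + 0
    rw [add_zero]; exact hu)
  rw [mul_one] at h
  exact h

/-- the complex has the required properties -/
theorem sk2 (hE1 : StE1) (hXfin : X.Finite) (hX : ∀ x ∈ X, x⁻¹ ∈ X) (h1 : (1 : G) ∈ X)
    (hCon : HS.Con χ X)
    (hatt : ∀ c, Pa (ve 1) ((K χ X C att).att c) (ve 1))
    (hsc : ∀ (g : G) (p : List ((G × (K χ X C att).B 1) × Bool)), 0 ≤ χ (Additive.ofMul g) →
      Pa (ve g) p (ve g) → Hom (ve g) p []) : Sk2 χ (K χ X C att) := by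
  classical
  have hd0 : ∀ b, (K χ X C att).d 0 b =
      single ((K χ X C att).tgt b) 1 - single ((K χ X C att).src b) 1 := fun b => rfl
  have hd1 : ∀ b, (K χ X C att).d 1 b = (K χ X C att).chn ((K χ X C att).att b) := fun b => rfl
  have hgood : (K χ X C att).Good := by
    refine ⟨fun b => isPath_mono (fun _ _ => trivial) (hatt b), hd0, hd1, fun i b => ?_⟩
    match i with
    | 0 =>
      have h2 := ext_chn hd0 (hatt b)
      rw [sub_self] at h2
      exact h2
    | i + 1 => exact Empty.elim b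
  have hge : ∀ g : G, (K χ X C att).Ge χ (fun _ _ => 0) 0 0 (ve g) ↔
      0 ≤ χ (Additive.ofMul g) := by
    intro g
    show (0 : ℝ) ≤ χ (Additive.ofMul g) + 0 ↔ _
    rw [add_zero]
  have hpath : ∀ v w : G × (K χ X C att).B 0,
      (K χ X C att).Ge χ (fun _ _ => 0) 0 0 v → (K χ X C att).Ge χ (fun _ _ => 0) 0 0 w →
      ∃ p, (K χ X C att).IsPath (H1 χ X C att) v p w := by
    intro v w hv hw
    obtain ⟨g, rfl⟩ := exV v
    obtain ⟨h, rfl⟩ := exV w
    rw [hge] at hv hw
    obtain ⟨w, hw1, hw2⟩ := hCon g h hv hw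
    refine ⟨PW h1 g w, ?_⟩
    have h3 := isPath_PW (C := C) (att := att) hX h1 hw1
    rw [hw2] at h3
    exact h3
  have hpi : ∀ (v : G × (K χ X C att).B 0) (p : List ((G × (K χ X C att).B 1) × Bool)),
      (K χ X C att).Ge χ (fun _ _ => 0) 0 0 v → (K χ X C att).IsPath (H1 χ X C att) v p v →
      (K χ X C att).Hty (H1 χ X C att) (H2 χ X C att) v p [] := by
    intro v p hv hp
    obtain ⟨g, rfl⟩ := exV v
    rw [hge] at hv
    exact hsc g p hv hp
  have hne : ∃ v : G × (K χ X C att).B 0, (K χ X C att).Ge χ (fun _ _ => 0) 0 0 v := by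
    refine ⟨ve 1, ?_⟩
    rw [hge, chi_one]
  refine ⟨hgood, fun i => ?_, ?_, ?_, ?_, ?_⟩
  · show IsEmpty Empty
    infer_instance
  · show Finite Unit
    infer_instance
  · show Finite (Edg χ X)
    exact (hXfin.subset (fun x (hx : x ∈ X ∧ 0 ≤ χ (Additive.ofMul x)) => hx.1)).to_subtype
  · refine ⟨fun b => ?_, fun b => ?_, fun b => ?_, fun b e he => ?_, fun i b c hc => ?_⟩
    · show (0 : ℝ) ≤ χ (Additive.ofMul (1 : G)) + 0
      rw [chi_one, add_zero]
    · show (0 : ℝ) ≤ χ (Additive.ofMul (Subtype.val (show Edg χ X from b))) + 0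
      rw [add_zero]
      exact (show Edg χ X from b).2.2
    · show (0 : ℝ) ≤ χ (Additive.ofMul (1 : G)) + 0
      rw [chi_one, add_zero]
    · exact isPath_mem (hatt b) e he
    · match i with
      | 0 =>
        rw [hd0] at hc
        show (0 : ℝ) ≤ χ (Additive.ofMul c.1) + 0
        rw [add_zero]
        rcases Finset.mem_union.1 (Finsupp.support_sub hc) with h4 | h4
        · have h5 := Finsupp.support_single_subset h4
          rw [Finset.mem_singleton] at h5
          rw [h5]
          exact (show Edg χ X from b).2.2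
        · have h5 := Finsupp.support_single_subset h4
          rw [Finset.mem_singleton] at h5
          rw [h5]
          show (0 : ℝ) ≤ χ (Additive.ofMul (1 : G))
          rw [chi_one]
      | 1 =>
        rw [hd1] at hc
        have h3 : ∀ (p : List ((G × (K χ X C att).B 1) × Bool)),
            c ∈ ((K χ X C att).chn p).support → ∃ e ∈ p, e.1 = c := by
          intro p
          induction p with
          | nil =>
            intro h
            rw [Cel.chn] at h
            simp at h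
          | cons e p ih =>
            intro h
            rw [chn_cons] at h
            rcases Finset.mem_union.1 (Finsupp.support_add h) with h4 | h4
            · have h5 := Finsupp.support_single_subset h4
              rw [Finset.mem_singleton] at h5
              exact ⟨e, List.mem_cons_self, h5.symm⟩
            · obtain ⟨e', he', h6⟩ := ih h4
              exact ⟨e', List.mem_cons_of_mem _ he', h6⟩
        obtain ⟨e, he, rfl⟩ := h3 _ hc
        exact isPath_mem (hatt b) e he
      | i + 2 => exact Empty.elim b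
  · refine ⟨fun _ => ⟨hne, hpath⟩, fun _ => hpi, fun i hi => ?_⟩
    have hi0 : i = 0 := by omega
    subst hi0
    refine hE1 G (K χ X C att) hgood ((K χ X C att).Ge χ (fun _ _ => 0) 0 0) (H1 χ X C att)
      (H2 χ X C att) ?_ hne hpath hpi
    intro e he
    obtain ⟨g, x, s, rfl⟩ := exE e
    have hg : 0 ≤ χ (Additive.ofMul g) := h1_iff.1 he
    cases s
    · rw [st_f, hge, chi_mul]
      have := x.2.2
      linarith
    · rw [st_t, hge]
      exact hg

end Complex

end Pool.Agent.Work.MP_e9e200_al.HT.SKC
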